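import Pool.Agent.Helper20.EQ.St5
import Pool.Agent.Helper17.LM.M_HLS
import Pool.Agent.Helper27.LM.M_HLW
import Pool.Agent.Helper42.LM.M_MZ1
import Pool.Agent.Helper42.LM.M_LC

/-!
# Project EQ: module CRQ (the strong type estimate for bounded functions)
-/

set_option autoImplicit false

open MeasureTheory Set Filter Topology
open scoped ENNReal RealInnerProductSpace

namespace Pool.Agent.Helper78.EQ

open Pool.Agent.Helper68.LM (Pl BB Bd Av HL)
open Pool.Agent.Helper20.RG Pool.Agent.Helper20.EQ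
open Pool.Agent.Helper68.EP (elt GapP)

namespace CRQ

theorem aHLS : Pool.Agent.Helper68.LM.StHLS :=
  Pool.Agent.Helper17.LM.hHLS Pool.Agent.Helper27.LM.hHLW
    (Pool.Agent.Helper42.LM.hMZ1 Pool.Agent.Helper42.LM.hLC)

theorem rp4 (p : ℝ) (l : ℤ) : ((4 : ℝ) ^ l) ^ (p / 2) = (2 : ℝ) ^ (p * l) := by
  have h4 : (4 : ℝ) ^ l = (2 : ℝ) ^ (2 * (l : ℝ)) := by
    rw [Real.rpow_mul (by norm_num), Real.rpow_intCast]
    norm_num
  rw [h4, ← Real.rpow_mul (by norm_num)]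
  congr 1
  ring

/-- the layers -/
theorem layer (p : ℝ) (hp : 1 ≤ p) (H : ℝ≥0∞) :
    ∑' l : ℤ, (if ENNReal.ofReal ((4 : ℝ) ^ l) < H then ENNReal.ofReal ((2 : ℝ) ^ (p * l)) else 0) ≤
      2 * H ^ (p / 2) := by
  rcases eq_or_ne H ⊤ with hT | hT
  · rw [hT, ENNReal.top_rpow_of_pos (by linarith), ENNReal.mul_top (by norm_num)]
    exact le_top
  rcases eq_or_ne H 0 with h0 | h0
  · rw [h0]
    simp
  have hh : 0 < H.toReal := ENNReal.toReal_pos h0 hT
  obtain ⟨L, hL1, hL2⟩ := exists_mem_Ico_zpow hh (by norm_num : (1 : ℝ) < 4)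
  have hH : H = ENNReal.ofReal H.toReal := (ENNReal.ofReal_toReal hT).symm
  have h1 : ∀ l : ℤ, (if ENNReal.ofReal ((4 : ℝ) ^ l) < H then
      ENNReal.ofReal ((2 : ℝ) ^ (p * l)) else 0) ≤
      (if l ≤ L then ENNReal.ofReal ((2 : ℝ) ^ (p * l)) else 0) := by
    intro l
    split_ifs with h2 h3 h3
    · exact le_refl _
    · exfalso
      rw [hH, ENNReal.ofReal_lt_ofReal_iff hh] at h2
      have h4 : (4 : ℝ) ^ l < (4 : ℝ) ^ (L + 1) := h2.trans hL2
      rw [zpow_lt_zpow_iff_right₀ (by norm_num)] at h4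
      omega
    · exact zero_le
    · exact le_refl _
  refine (ENNReal.tsum_le_tsum h1).trans ?_
  have hinj : Function.Injective (fun n : ℕ => L - (n : ℤ)) := by
    intro a b hab
    simp only at hab
    omega
  rw [← hinj.tsum_eq (f := fun l : ℤ => (if l ≤ L then ENNReal.ofReal ((2 : ℝ) ^ (p * l)) else 0))]
  swap
  · intro l hl
    rw [Function.mem_support] at hl
    have hl' : l ≤ L := by
      by_contra h
      exact hl (if_neg h)
    exact ⟨(L - l).toNat, by simp only; omega⟩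
  have h5 : ∀ n : ℕ, (if L - (n : ℤ) ≤ L then
      ENNReal.ofReal ((2 : ℝ) ^ (p * ((L - (n : ℤ) : ℤ) : ℝ))) else 0) ≤
      ENNReal.ofReal ((2 : ℝ) ^ (p * L)) * ENNReal.ofReal ((1 / 2 : ℝ) ^ n) := by
    intro n
    rw [if_pos (by omega), ← ENNReal.ofReal_mul (by positivity)]
    apply ENNReal.ofReal_le_ofReal
    have e1 : (2 : ℝ) ^ (p * ((L - (n : ℤ) : ℤ) : ℝ)) = (2 : ℝ) ^ (p * L) * (2 : ℝ) ^ (-(p * n)) := by
      rw [← Real.rpow_add (by norm_num)]
      congr 1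
      push_cast
      ring
    have e2 : (1 / 2 : ℝ) ^ n = (2 : ℝ) ^ (-(n : ℝ)) := by
      rw [Real.rpow_neg (by norm_num), Real.rpow_natCast, one_div, inv_pow]
    rw [e1, e2]
    apply mul_le_mul_of_nonneg_left _ (by positivity)
    apply Real.rpow_le_rpow_of_exponent_le (by norm_num)
    have : (n : ℝ) ≤ p * n := by
      have : (0 : ℝ) ≤ n := Nat.cast_nonneg _
      nlinarith
    linarith
  refine (ENNReal.tsum_le_tsum h5).trans ?_
  rw [ENNReal.tsum_mul_left, ← ENNReal.ofReal_tsum_of_nonneg (fun m => by positivity)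
    summable_geometric_two, tsum_geometric_two, mul_comm]
  have h6 : ENNReal.ofReal ((2 : ℝ) ^ (p * L)) ≤ H ^ (p / 2) := by
    rw [← rp4, ← ENNReal.ofReal_rpow_of_nonneg (by positivity) (by linarith)]
    apply ENNReal.rpow_le_rpow _ (by linarith)
    rw [hH]
    exact ENNReal.ofReal_le_ofReal hL1
  have h7 : ENNReal.ofReal 2 = 2 := by simp
  rw [h7]
  gcongr

/-- a number is at most the sum of its layers -/
theorem layer_ge (p C : ℝ) (hp : 0 < p) (hC : 0 < C) (F : ℝ≥0∞) :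
    F ^ p ≤ ∑' l : ℤ, (if ENNReal.ofReal (C * (2 : ℝ) ^ l) < F then
      ENNReal.ofReal ((2 * C) ^ p) * ENNReal.ofReal ((2 : ℝ) ^ (p * l)) else 0) := by
  apply ENNReal.le_of_forall_nnreal_lt
  intro r hr
  rcases eq_or_ne r 0 with h0 | h0
  · rw [h0]
    simp
  have hr0 : 0 < (r : ℝ) := by
    have : 0 < r := pos_iff_ne_zero.2 h0
    exact_mod_cast this
  obtain ⟨y, hy⟩ : ∃ y : ℝ, y = (r : ℝ) ^ (1 / p) := ⟨_, rfl⟩
  have hy0 : 0 < y := by
    rw [hy]
    positivity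
  have hyp : y ^ p = r := by
    rw [hy, ← Real.rpow_mul hr0.le, one_div, inv_mul_cancel₀ hp.ne', Real.rpow_one]
  have hyF : ENNReal.ofReal y < F := by
    by_contra h
    push Not at h
    have h1 : F ^ p ≤ (ENNReal.ofReal y) ^ p := ENNReal.rpow_le_rpow h hp.le
    rw [ENNReal.ofReal_rpow_of_nonneg hy0.le hp.le, hyp, ENNReal.ofReal_coe_nnreal] at h1
    exact absurd hr (not_lt.2 h1)
  obtain ⟨l, hl1, hl2⟩ := exists_mem_Ico_zpow (div_pos hy0 hC) (by norm_num : (1 : ℝ) < 2)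
  rw [le_div_iff₀ hC] at hl1
  rw [div_lt_iff₀ hC] at hl2
  refine le_trans ?_ (ENNReal.le_tsum l)
  rw [if_pos]
  · rw [← ENNReal.ofReal_mul (by positivity)]
    have e1 : (r : ℝ≥0∞) = ENNReal.ofReal (y ^ p) := by
      rw [hyp, ENNReal.ofReal_coe_nnreal]
    rw [e1]
    apply ENNReal.ofReal_le_ofReal
    have e2 : (2 * C) ^ p * (2 : ℝ) ^ (p * l) = (2 ^ (l + 1) * C) ^ p := by
      rw [mul_comm p, Real.rpow_mul (by norm_num), Real.rpow_intCast,
        ← Real.mul_rpow (by positivity) (by positivity)]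
      congr 1
      rw [zpow_add_one₀ (by norm_num)]
      ring
    rw [e2]
    exact Real.rpow_le_rpow hy0.le hl2.le hp.le
  · refine lt_of_le_of_lt (ENNReal.ofReal_le_ofReal ?_) hyF
    rw [mul_comm]
    exact hl1

theorem BB_sq {g : Pl → ℝ} (hg : BB g) : BB (fun y => g y ^ 2) := by
  obtain ⟨hm, K, hK, hs⟩ := hg
  refine ⟨hm.pow_const 2, max K (K ^ 2), fun x => ?_, fun x hx => ?_⟩
  · rw [abs_pow]
    exact (pow_le_pow_left₀ (abs_nonneg _) (hK x) 2).trans (le_max_right _ _)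
  · show g x ^ 2 = 0
    rw [hs x (lt_of_le_of_lt (le_max_left _ _) hx)]
    norm_num

/-- the bad sets of the maximal function -/
theorem bad_sum {p : ℝ} (hp2 : 2 < p) {R₀ : ℝ} (hR : 0 < R₀) : ∃ C : ℝ, 0 < C ∧
    ∀ g : Pl → ℝ, BB g → (∀ x, 0 ≤ g x) →
      ∑' l : ℤ, ENNReal.ofReal ((2 : ℝ) ^ (p * l)) * volume {x | ¬ Gd R₀ l g x} ≤
        ENNReal.ofReal C * ∫⁻ x, ENNReal.ofReal (g x) ^ p := by
  obtain ⟨C, hC, h⟩ := aHLS.2 R₀ hR (p / 2) (by linarith)
  refine ⟨2 * C, by positivity, fun g hg hg0 => ?_⟩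
  have hsq := BB_sq hg
  have hmeas : Measurable (HL R₀ (fun y => g y ^ 2)) := aHLS.1 R₀ _ hsq
  have hset : ∀ l : ℤ, MeasurableSet {x | ENNReal.ofReal ((4 : ℝ) ^ l) <
      HL R₀ (fun y => g y ^ 2) x} := fun l => measurableSet_lt measurable_const hmeas
  have h1 : ∀ l : ℤ, ENNReal.ofReal ((2 : ℝ) ^ (p * l)) * volume {x | ¬ Gd R₀ l g x} =
      ∫⁻ x, (if ENNReal.ofReal ((4 : ℝ) ^ l) < HL R₀ (fun y => g y ^ 2) x then
        ENNReal.ofReal ((2 : ℝ) ^ (p * l)) else 0) := by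
    intro l
    have e1 : {x | ¬ Gd R₀ l g x} = {x | ENNReal.ofReal ((4 : ℝ) ^ l) <
        HL R₀ (fun y => g y ^ 2) x} := by
      ext x
      simp only [Gd, Set.mem_ofPred_eq, not_le]
    rw [e1, ← lintegral_indicator_const (hset l)]
    apply lintegral_congr
    intro x
    by_cases hx : ENNReal.ofReal ((4 : ℝ) ^ l) < HL R₀ (fun y => g y ^ 2) x
    · rw [if_pos hx, Set.indicator_of_mem]
      exact hx
    · rw [if_neg hx, Set.indicator_of_notMem]
      exact hx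
  simp_rw [h1]
  rw [← lintegral_tsum (fun l => (Measurable.ite (hset l) measurable_const
    measurable_const).aemeasurable)]
  calc ∫⁻ x, ∑' l : ℤ, (if ENNReal.ofReal ((4 : ℝ) ^ l) < HL R₀ (fun y => g y ^ 2) x then
        ENNReal.ofReal ((2 : ℝ) ^ (p * l)) else 0)
      ≤ ∫⁻ x, 2 * HL R₀ (fun y => g y ^ 2) x ^ (p / 2) :=
        lintegral_mono fun x => layer p (by linarith) _
    _ = 2 * ∫⁻ x, HL R₀ (fun y => g y ^ 2) x ^ (p / 2) :=
        lintegral_const_mul _ (hmeas.pow_const _)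
    _ ≤ 2 * (ENNReal.ofReal C * ∫⁻ x, ENNReal.ofReal (g x ^ 2) ^ (p / 2)) := by
        gcongr
        exact h _ hsq (fun x => by positivity)
    _ = ENNReal.ofReal (2 * C) * ∫⁻ x, ENNReal.ofReal (g x) ^ p := by
        rw [ENNReal.ofReal_mul (by norm_num), ← mul_assoc]
        congr 1
        · simp
        · congr 1
          funext x
          rw [ENNReal.ofReal_pow (hg0 x), ← ENNReal.rpow_natCast, ← ENNReal.rpow_mul]
          congr 1
          push_cast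
          ring

end CRQ

open CRQ in
theorem hCRQ (hDMP : StDMP) (hEER : StEER) (hEVS : StEVS) : StCRQ := by
  intro φ τ A p c hG hA hGp hp2 hp3
  obtain ⟨C₁, hC1, hD⟩ := hDMP φ τ A p c hG hA hGp (by linarith)
  obtain ⟨C₂, hC2, hE⟩ := hEER φ τ A p c hG hA hGp hp2 hp3
  obtain ⟨C₃, hC3, hV⟩ := hEVS φ τ A p c hG hA hGp hp2 hp3
  obtain ⟨R₀, hR⟩ : ∃ R₀, R₀ = max C₁ C₃ := ⟨_, rfl⟩
  have hR1 : C₁ ≤ R₀ := by rw [hR]; exact le_max_left _ _
  have hR3 : C₃ ≤ R₀ := by rw [hR]; exact le_max_right _ _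
  obtain ⟨C₄, hC4, hB⟩ := bad_sum hp2 (show 0 < R₀ by linarith)
  have hC10 : 0 < C₁ := by linarith
  have hp0 : 0 < p := by linarith
  refine ⟨(2 * C₁) ^ p * (C₄ + C₂ + C₃), by positivity, fun g hg hg0 => ?_⟩
  obtain ⟨F, hF⟩ : ∃ F : Pl → ℝ≥0∞, F = fun x =>
    ⨆ k : ℤ, ENNReal.ofReal (Av (arc c φ) ((2 : ℝ) ^ k) g x) := ⟨_, rfl⟩
  obtain ⟨S, hS⟩ : ∃ S : ℤ → Set Pl, S = fun l =>
    {x | ENNReal.ofReal (C₁ * (2 : ℝ) ^ l) < F x} := ⟨_, rfl⟩
  -- the level sets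
  have hvol : ∀ l : ℤ, volume (S l) ≤ volume {x | ¬ Gd R₀ l g x} +
      volume {x | ∃ (k : ℤ) (u : ℕ), 2 ≤ u ∧
        (2 : ℝ) ^ l / (u : ℝ) ^ 2 ≤ |er c φ τ u k (fh l g) x|} +
      volume {x | Gd R₀ l g x ∧ ∃ k : ℤ,
        ENNReal.ofReal ((2 : ℝ) ^ l) ≤ ∑' u : ℕ, (if 2 ≤ u then Ht c φ τ u k (fh l g) x else 0)} := by
    intro l
    refine le_trans ?_ ((measure_union_le _ _).trans (add_le_add_left (measure_union_le _ _) _))
    apply measure_mono_ae
    filter_upwards [hD R₀ g hR1 hg hg0] with x hx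
    intro hxS
    have hxS' : ENNReal.ofReal (C₁ * (2 : ℝ) ^ l) < F x := by
      rw [hS] at hxS
      exact hxS
    rw [hF] at hxS'
    obtain ⟨k, hk⟩ := lt_iSup_iff.1 hxS'
    have hk' : C₁ * (2 : ℝ) ^ l < Av (arc c φ) ((2 : ℝ) ^ k) g x := by
      rwa [ENNReal.ofReal_lt_ofReal_iff_of_nonneg (by positivity)] at hk
    by_cases hgd : Gd R₀ l g x
    · rcases hx k l hgd hk' with ⟨u, h1, h2⟩ | h1
      · exact Or.inl (Or.inr ⟨k, u, h1, h2⟩)
      · exact Or.inr ⟨hgd, k, h1⟩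
    · exact Or.inl (Or.inl hgd)
  have hint : ∫⁻ x, F x ^ p ≤ ∑' l : ℤ, ENNReal.ofReal ((2 * C₁) ^ p) *
      ENNReal.ofReal ((2 : ℝ) ^ (p * l)) * volume (S l) := by
    calc ∫⁻ x, F x ^ p ≤ ∫⁻ x, ∑' l : ℤ, (toMeasurable volume (S l)).indicator
          (fun _ => ENNReal.ofReal ((2 * C₁) ^ p) * ENNReal.ofReal ((2 : ℝ) ^ (p * l))) x := by
          apply lintegral_mono
          intro x
          refine (layer_ge p C₁ hp0 hC10 (F x)).trans ?_
          apply ENNReal.tsum_le_tsum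
          intro l
          split_ifs with h
          · rw [Set.indicator_of_mem]
            apply subset_toMeasurable
            rw [hS]
            exact h
          · exact zero_le
      _ = ∑' l : ℤ, ∫⁻ x, (toMeasurable volume (S l)).indicator
          (fun _ => ENNReal.ofReal ((2 * C₁) ^ p) * ENNReal.ofReal ((2 : ℝ) ^ (p * l))) x :=
          lintegral_tsum fun l => (measurable_const.indicator
            (measurableSet_toMeasurable _ _)).aemeasurable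
      _ = ∑' l : ℤ, ENNReal.ofReal ((2 * C₁) ^ p) *
          ENNReal.ofReal ((2 : ℝ) ^ (p * l)) * volume (S l) := by
          congr 1
          funext l
          rw [lintegral_indicator_const (measurableSet_toMeasurable _ _), measure_toMeasurable]
  have hfin : ∫⁻ x, F x ^ p ≤ ENNReal.ofReal ((2 * C₁) ^ p * (C₄ + C₂ + C₃)) *
      ∫⁻ x, ENNReal.ofReal (g x) ^ p := by
    refine hint.trans ?_
    have h1 : ∀ l : ℤ, ENNReal.ofReal ((2 * C₁) ^ p) * ENNReal.ofReal ((2 : ℝ) ^ (p * l)) *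
        volume (S l) ≤ ENNReal.ofReal ((2 * C₁) ^ p) *
        (ENNReal.ofReal ((2 : ℝ) ^ (p * l)) * volume {x | ¬ Gd R₀ l g x} +
        ENNReal.ofReal ((2 : ℝ) ^ (p * l)) * volume {x | ∃ (k : ℤ) (u : ℕ), 2 ≤ u ∧
          (2 : ℝ) ^ l / (u : ℝ) ^ 2 ≤ |er c φ τ u k (fh l g) x|} +
        ENNReal.ofReal ((2 : ℝ) ^ (p * l)) * volume {x | Gd R₀ l g x ∧ ∃ k : ℤ,
          ENNReal.ofReal ((2 : ℝ) ^ l) ≤
            ∑' u : ℕ, (if 2 ≤ u then Ht c φ τ u k (fh l g) x else 0)}) := by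
      intro l
      rw [mul_assoc, ← mul_add, ← mul_add]
      gcongr
      exact hvol l
    refine (ENNReal.tsum_le_tsum h1).trans ?_
    rw [ENNReal.tsum_mul_left, ENNReal.tsum_add, ENNReal.tsum_add]
    have e1 : ENNReal.ofReal ((2 * C₁) ^ p * (C₄ + C₂ + C₃)) *
        (∫⁻ x, ENNReal.ofReal (g x) ^ p) =
        ENNReal.ofReal ((2 * C₁) ^ p) * (ENNReal.ofReal C₄ * (∫⁻ x, ENNReal.ofReal (g x) ^ p) +
          ENNReal.ofReal C₂ * (∫⁻ x, ENNReal.ofReal (g x) ^ p) +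
          ENNReal.ofReal C₃ * (∫⁻ x, ENNReal.ofReal (g x) ^ p)) := by
      rw [ENNReal.ofReal_mul (by positivity), ENNReal.ofReal_add (by positivity) (by linarith),
        ENNReal.ofReal_add hC4.le hC2.le]
      ring
    rw [e1]
    gcongr
    · exact hB g hg hg0
    · exact hE g hg hg0
    · exact hV R₀ g hR3 hg hg0
  rw [hF] at hfin
  exact hfin

end Pool.Agent.Helper78.EQ
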