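import Pool.Agent.Helper20.EQ.St1

/-!
# Project EQ: module WRM (multiplier sums for the cells)
-/

set_option autoImplicit false

open MeasureTheory Set Filter Topology
open scoped ENNReal RealInnerProductSpace

namespace Pool.Agent.Helper78.EQ

open Pool.Agent.Helper68.LM (Pl)
open Pool.Agent.Helper20.RG Pool.Agent.Helper20.EQ
open Pool.Agent.Helper68.EP (elt GapP)

/-! ## Sums over the integers -/

theorem norm2 {r : ℝ} (hr : 0 < r) : ∃ n : ℤ, ∀ i : ℤ,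
    (2 : ℝ) ^ i ≤ (2 : ℝ) ^ (i - n) * r ∧ (2 : ℝ) ^ (i - n) * r < (2 : ℝ) ^ (i + 1) := by
  obtain ⟨n, h1, h2⟩ := exists_mem_Ico_zpow hr (one_lt_two : (1 : ℝ) < 2)
  refine ⟨n, fun i => ?_⟩
  have e1 : (2 : ℝ) ^ i = (2 : ℝ) ^ (i - n) * (2 : ℝ) ^ n := by
    rw [← zpow_add₀ two_ne_zero]; congr 1; ring
  have e2 : (2 : ℝ) ^ (i + 1) = (2 : ℝ) ^ (i - n) * (2 : ℝ) ^ (n + 1) := by
    rw [← zpow_add₀ two_ne_zero]; congr 1; ring
  have hp : (0 : ℝ) < (2 : ℝ) ^ (i - n) := by positivity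
  constructor
  · rw [e1]; exact mul_le_mul_of_nonneg_left h1 hp.le
  · rw [e2]; exact mul_lt_mul_of_pos_left h2 hp

theorem zsplit (f : ℤ → ℝ≥0∞) (n : ℤ) : ∑' k : ℤ, f k =
    (∑' i : ℕ, f ((i : ℤ) - n)) + ∑' m : ℕ, f (-((m : ℤ) + 1) - n) := by
  rw [← (Equiv.subRight n).tsum_eq f]
  rw [tsum_of_nat_of_neg_add_one ENNReal.summable ENNReal.summable]
  rfl

theorem geo : ∑' m : ℕ, ENNReal.ofReal ((1 / 2 : ℝ) ^ m) = ENNReal.ofReal 2 := by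
  rw [← ENNReal.ofReal_tsum_of_nonneg (fun m => by positivity) summable_geometric_two,
    tsum_geometric_two]

theorem geo1 : ∑' m : ℕ, ENNReal.ofReal (((m : ℝ) + 1) * (1 / 2 : ℝ) ^ m) = ENNReal.ofReal 4 := by
  have h : HasSum (fun m : ℕ => ((m : ℝ) + 1) * (1 / 2 : ℝ) ^ m) 4 := by
    have h1 := hasSum_coe_mul_geometric_of_norm_lt_one (r := (1 / 2 : ℝ)) (by norm_num)
    have h3 := h1.add hasSum_geometric_two
    have e : (1 / 2 : ℝ) / (1 - 1 / 2) ^ 2 + 2 = 4 := by norm_num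
    rw [e] at h3
    refine h3.congr_fun ?_ |> fun h => h
    intro m
    ring
  rw [← ENNReal.ofReal_tsum_of_nonneg (fun m => by positivity) h.summable, h.tsum_eq]

/-! ## The multiplier -/

theorem Tht_smul (s : ℝ) (V : ℕ) (t : ℝ) (ξ : Pl) (ht : 0 < t) :
    Tht s V (t • ξ) = min 1 (t * |ξ 1|) * min 1 ((2 : ℝ) ^ V / (t * |ξ 1|)) *
      (1 / (1 + t * |⟪E s, ξ⟫|)) := by
  have h1 : (t • ξ) 1 = t * ξ 1 := rfl
  unfold Tht
  rw [h1, abs_mul, abs_of_pos ht, inner_smul_right, abs_mul, abs_of_pos ht]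

theorem Tht_le1 (s : ℝ) (V : ℕ) (t : ℝ) (ξ : Pl) (ht : 0 < t) :
    Tht s V (t • ξ) ≤ t * |ξ 1| := by
  rw [Tht_smul s V t ξ ht]
  have h0 : 0 ≤ t * |ξ 1| := by positivity
  have h1 : min 1 (t * |ξ 1|) ≤ t * |ξ 1| := min_le_right _ _
  have h1' : 0 ≤ min 1 (t * |ξ 1|) := le_min zero_le_one h0
  have h2 : min 1 ((2 : ℝ) ^ V / (t * |ξ 1|)) ≤ 1 := min_le_left _ _
  have h2' : 0 ≤ min 1 ((2 : ℝ) ^ V / (t * |ξ 1|)) := le_min zero_le_one (by positivity)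
  have h3 : 1 / (1 + t * |⟪E s, ξ⟫|) ≤ 1 := by
    rw [div_le_one (by positivity)]
    have : 0 ≤ t * |⟪E s, ξ⟫| := by positivity
    linarith
  have h3' : 0 ≤ 1 / (1 + t * |⟪E s, ξ⟫|) := by positivity
  calc min 1 (t * |ξ 1|) * min 1 ((2 : ℝ) ^ V / (t * |ξ 1|)) * (1 / (1 + t * |⟪E s, ξ⟫|))
      ≤ (t * |ξ 1|) * 1 * 1 := by gcongr
    _ = t * |ξ 1| := by ring

theorem Tht_le2 (s : ℝ) (V : ℕ) (t : ℝ) (ξ : Pl) (ht : 0 < t) :
    Tht s V (t • ξ) ≤ 1 / (1 + t * |⟪E s, ξ⟫|) := by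
  rw [Tht_smul s V t ξ ht]
  have h0 : 0 ≤ t * |ξ 1| := by positivity
  have h1 : min 1 (t * |ξ 1|) ≤ 1 := min_le_left _ _
  have h1' : 0 ≤ min 1 (t * |ξ 1|) := le_min zero_le_one h0
  have h2 : min 1 ((2 : ℝ) ^ V / (t * |ξ 1|)) ≤ 1 := min_le_left _ _
  have h2' : 0 ≤ min 1 ((2 : ℝ) ^ V / (t * |ξ 1|)) := le_min zero_le_one (by positivity)
  have h3' : 0 ≤ 1 / (1 + t * |⟪E s, ξ⟫|) := by positivity
  calc min 1 (t * |ξ 1|) * min 1 ((2 : ℝ) ^ V / (t * |ξ 1|)) * (1 / (1 + t * |⟪E s, ξ⟫|))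
      ≤ 1 * 1 * (1 / (1 + t * |⟪E s, ξ⟫|)) := by gcongr
    _ = 1 / (1 + t * |⟪E s, ξ⟫|) := by ring

theorem inner_E (hPT : StPT) (s : ℝ) (ξ : Pl) : ⟪E s, ξ⟫ = ξ 0 + s * ξ 1 := by
  rw [hPT.2.2.2.1]
  unfold E
  rw [(hPT.1 1 s).1, (hPT.1 1 s).2, one_mul]

/-- the flat case -/
theorem inner_flat (hPT : StPT) (s : ℝ) (hs : |s| ≤ 1) (ξ : Pl) (h : |ξ 1| < ‖ξ‖ / 4) :
    ‖ξ‖ / 2 ≤ |⟪E s, ξ⟫| := by
  rw [inner_E hPT]
  have h1 := (hPT.2.2.1 ξ).2.2.1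
  have h2 : |ξ 0| ≤ |ξ 0 + s * ξ 1| + |s * ξ 1| := by
    have := abs_sub_abs_le_abs_sub (ξ 0) (-(s * ξ 1))
    rw [abs_neg, sub_neg_eq_add] at this
    linarith
  have h3 : |s * ξ 1| ≤ |ξ 1| := by
    rw [abs_mul]
    exact mul_le_of_le_one_left (abs_nonneg _) hs
  linarith

/-- the steep case -/
theorem inner_steep (hPT : StPT) (s : ℝ) (ξ : Pl) (h : ‖ξ‖ / 4 ≤ |ξ 1|) (h0 : ξ 1 ≠ 0) :
    |⟪E s, ξ⟫| = |ξ 1| * |s - th ξ| := by
  rw [inner_E hPT, ← abs_mul]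
  unfold th
  rw [if_pos h]
  congr 1
  field_simp
  ring

theorem ptw (x d : ℝ) (A i : ℕ) (hx : (2 : ℝ) ^ i ≤ x) (hd : 0 ≤ d) :
    ∃ a a' : ℕ, d ≤ (2 : ℝ) ^ ((a : ℤ) - (i : ℤ)) ∧ i ≤ A + a' ∧
      min 1 x * min 1 ((2 : ℝ) ^ A / x) * (1 / (1 + x * d)) ≤
        2 * (1 / 2 : ℝ) ^ a * (1 / 2 : ℝ) ^ a' := by
  classical
  have hx0 : 0 < x := lt_of_lt_of_le (by positivity) hx
  have hex : ∃ a : ℕ, d ≤ (2 : ℝ) ^ ((a : ℤ) - (i : ℤ)) := by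
    obtain ⟨a, ha⟩ := pow_unbounded_of_one_lt (d * 2 ^ i) (one_lt_two : (1 : ℝ) < 2)
    refine ⟨a, ?_⟩
    rw [zpow_sub₀ two_ne_zero, zpow_natCast, zpow_natCast, le_div_iff₀ (by positivity)]
    exact ha.le
  have h1 : min 1 x ≤ 1 := min_le_left _ _
  have h1' : 0 ≤ min 1 x := le_min zero_le_one hx0.le
  have h2' : 0 ≤ min 1 ((2 : ℝ) ^ A / x) := le_min zero_le_one (by positivity)
  have h2 : min 1 ((2 : ℝ) ^ A / x) ≤ (1 / 2 : ℝ) ^ (i - A) := by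
    rcases le_total i A with h | h
    · rw [Nat.sub_eq_zero_of_le h, pow_zero]
      exact min_le_left _ _
    · refine (min_le_right _ _).trans ?_
      rw [div_le_iff₀ hx0]
      have e : (2 : ℝ) ^ A = (1 / 2 : ℝ) ^ (i - A) * 2 ^ i := by
        obtain ⟨j, rfl⟩ := Nat.exists_eq_add_of_le h
        rw [Nat.add_sub_cancel_left, pow_add, one_div, inv_pow]
        field_simp
      calc (2 : ℝ) ^ A = (1 / 2 : ℝ) ^ (i - A) * 2 ^ i := e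
        _ ≤ (1 / 2 : ℝ) ^ (i - A) * x := by gcongr
  have h3' : 0 ≤ 1 / (1 + x * d) := by positivity
  have h3 : 1 / (1 + x * d) ≤ 2 * (1 / 2 : ℝ) ^ (Nat.find hex) := by
    rcases Nat.eq_zero_or_pos (Nat.find hex) with h | h
    · rw [h, pow_zero, mul_one]
      rw [div_le_iff₀ (by positivity)]
      have : 0 ≤ x * d := by positivity
      linarith
    · obtain ⟨b, hb⟩ := Nat.exists_eq_add_of_le' h
      have hmin := Nat.find_min hex (m := b) (by omega)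
      push Not at hmin
      rw [hb, pow_succ]
      have h4 : (2 : ℝ) ^ b ≤ x * d := by
        have e : (2 : ℝ) ^ b = 2 ^ i * (2 : ℝ) ^ ((b : ℤ) - (i : ℤ)) := by
          rw [← zpow_natCast, ← zpow_natCast, ← zpow_add₀ two_ne_zero]
          congr 1
          ring
        rw [e]
        gcongr
      have e2 : 2 * ((1 / 2 : ℝ) ^ b * (1 / 2)) = 1 / 2 ^ b := by
        rw [one_div, inv_pow]
        field_simp
      rw [e2]
      apply one_div_le_one_div_of_le (by positivity)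
      linarith
  refine ⟨Nat.find hex, i - A, Nat.find_spec hex, by omega, ?_⟩
  calc min 1 x * min 1 ((2 : ℝ) ^ A / x) * (1 / (1 + x * d))
      ≤ 1 * (1 / 2 : ℝ) ^ (i - A) * (2 * (1 / 2 : ℝ) ^ (Nat.find hex)) := by gcongr
    _ = 2 * (1 / 2 : ℝ) ^ (Nat.find hex) * (1 / 2 : ℝ) ^ (i - A) := by ring

/-! ## Counting -/

/-- the number of chords in the filter -/
noncomputable def Mc (τ : ℝ → ℝ) (u : ℕ) (θ : ℝ) (A1 : ℕ → ℕ) (i a a' : ℕ) : ℕ :=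
  ((Finset.range (2 ^ u)).filter
    (fun j => |sl τ u j - θ| ≤ (2 : ℝ) ^ ((a : ℤ) - (i : ℤ)) ∧ i ≤ A1 j + a')).card

theorem Mc_le (τ : ℝ → ℝ) (u : ℕ) (θ : ℝ) (A1 : ℕ → ℕ) (i a a' : ℕ) :
    Mc τ u θ A1 i a a' ≤ 2 ^ u := by
  unfold Mc
  refine (Finset.card_filter_le _ _).trans ?_
  rw [Finset.card_range]

theorem Mc_nn (τ : ℝ → ℝ) (u : ℕ) (θ : ℝ) (A1 : ℕ → ℕ) (i a a' : ℕ) (h : a ≤ i) :
    Mc τ u θ A1 i a a' ≤ nn τ u θ (i - a) := by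
  unfold Mc nn
  rw [← Set.ncard_coe_finset]
  apply Set.ncard_le_ncard
  · intro j hj
    simp only [Finset.coe_filter, Finset.mem_range, Set.mem_ofPred_eq] at hj ⊢
    refine ⟨hj.1, hj.2.1.trans (le_of_eq ?_)⟩
    congr 1
    push_cast [Nat.cast_sub h]
    ring
  · exact (Set.finite_Iio (2 ^ u)).subset (fun j hj => hj.1)

theorem nn_anti (hCN : StCN) {φ τ : ℝ → ℝ} (hG : Graph φ τ) (u : ℕ) (θ : ℝ) :
    Antitone (nn τ u θ) :=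
  antitone_nat_of_succ_le fun i => (hCN φ τ hG u i θ).2.2.2.2.2.1

/-- the last scale -/
theorem Mc_zero (hCN : StCN) (hWT : StWT) {φ τ : ℝ → ℝ} {A p : ℝ} (hG : Graph φ τ) (hA : 0 < A)
    (hGp : GapP A p τ) (hp : 1 < p) {u v : ℕ} {Y : ℝ} {A1 : ℕ → ℕ} (hu : 1 ≤ u) (hY : 2 ≤ Y)
    (hA1 : ∀ j < 2 ^ u, A1 j ≤ Wt τ u Y (sl τ u j) + v) (θ : ℝ) (i a a' : ℕ)
    (hi : Wt τ u Y θ + (max a (a' + v) + 1) < i) : Mc τ u θ A1 i a a' = 0 := by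
  by_contra h
  have h' : 0 < Mc τ u θ A1 i a a' := Nat.pos_of_ne_zero h
  unfold Mc at h'
  obtain ⟨j, hj⟩ := Finset.card_pos.1 h'
  rw [Finset.mem_filter, Finset.mem_range] at hj
  obtain ⟨hj1, hj2, hj3⟩ := hj
  have hm1 := le_max_left a (a' + v)
  have hm2 := le_max_right a (a' + v)
  obtain ⟨q, hq⟩ : ∃ q, q = max a (a' + v) + 1 := ⟨_, rfl⟩
  rw [← hq] at hi
  have hA1j := hA1 j hj1
  obtain ⟨w1, w2, -⟩ := hWT φ τ A p hG hA hGp hp u Y (sl τ u j) hu hY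
  have hY2 := w2 (by omega)
  have hanti := nn_anti hCN hG u (sl τ u j)
  have h1 : nn τ u (sl τ u j) (Wt τ u Y (sl τ u j)) ≤ nn τ u (sl τ u j) (i - q + 1) :=
    hanti (by omega)
  have h2 : nn τ u (sl τ u j) (i - q + 1) ≤ nn τ u θ (i - q) := by
    refine ((hCN φ τ hG u (i - q) (sl τ u j)).2.2.2.2.2.2 θ ?_).2
    refine hj2.trans ?_
    apply zpow_le_zpow_right₀ one_le_two
    push_cast
    omega
  have h3 : Y ≤ (nn τ u θ (i - q) : ℝ) := by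
    refine hY2.trans ?_
    exact_mod_cast h1.trans h2
  have h4 := (hWT φ τ A p hG hA hGp hp u Y θ hu hY).1 _ h3
  omega

/-- the sum over the scales -/
theorem Mc_sum (hCN : StCN) (hWT : StWT) {φ τ : ℝ → ℝ} {A p : ℝ} (hG : Graph φ τ) (hA : 0 < A)
    (hGp : GapP A p τ) (hp : 1 < p) {u v : ℕ} {Y : ℝ} {A1 : ℕ → ℕ} (hu : 1 ≤ u) (hY : 2 ≤ Y)
    (hA1 : ∀ j < 2 ^ u, A1 j ≤ Wt τ u Y (sl τ u j) + v) (θ : ℝ) (a a' : ℕ) :
    ∑' i : ℕ, (Mc τ u θ A1 i a a' : ℝ≥0∞) ≤ ENNReal.ofReal (((a : ℝ) + 1) * ((a' : ℝ) + 1) *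
      ((2 : ℝ) ^ u + (v + 1) * Y + ∑ i ∈ Finset.Icc 1 (Wt τ u Y θ + 1), (nn τ u θ i : ℝ))) := by
  have hm1 := le_max_left a (a' + v)
  have hm2 := le_max_right a (a' + v)
  obtain ⟨e, he⟩ : ∃ e, e = max a (a' + v) - a := ⟨_, rfl⟩
  have he2 : e ≤ a' + v := by omega
  obtain ⟨W, hW⟩ : ∃ W, W = Wt τ u Y θ := ⟨_, rfl⟩
  rw [tsum_eq_sum (s := Finset.range ((a + 1) + ((W + 1) + e)))]
  swap
  · intro i hi
    rw [Finset.mem_range] at hi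
    rw [Mc_zero hCN hWT hG hA hGp hp hu hY hA1 θ i a a' (by omega)]
    simp
  have hS : ∑ i ∈ Finset.Icc 1 (Wt τ u Y θ + 1), (nn τ u θ i : ℝ) =
      ∑ x ∈ Finset.range (W + 1), (nn τ u θ (1 + x) : ℝ) := by
    rw [← hW, show Finset.Icc 1 (W + 1) = Finset.Ico 1 (W + 2) by
      ext x; simp only [Finset.mem_Icc, Finset.mem_Ico]; omega, Finset.sum_Ico_eq_sum_range]
    rfl
  rw [hS]
  have hreal : (∑ i ∈ Finset.range ((a + 1) + ((W + 1) + e)), (Mc τ u θ A1 i a a' : ℝ)) ≤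
      ((a : ℝ) + 1) * ((a' : ℝ) + 1) * ((2 : ℝ) ^ u + (v + 1) * Y +
        ∑ x ∈ Finset.range (W + 1), (nn τ u θ (1 + x) : ℝ)) := by
    rw [Finset.sum_range_add _ (a + 1) (W + 1 + e), Finset.sum_range_add _ (W + 1) e]
    have b1 : ∑ i ∈ Finset.range (a + 1), (Mc τ u θ A1 i a a' : ℝ) ≤ ((a : ℝ) + 1) * 2 ^ u := by
      calc ∑ i ∈ Finset.range (a + 1), (Mc τ u θ A1 i a a' : ℝ)
          ≤ ∑ i ∈ Finset.range (a + 1), (2 : ℝ) ^ u := by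
            apply Finset.sum_le_sum
            intro i _
            exact_mod_cast Mc_le τ u θ A1 i a a'
        _ = ((a : ℝ) + 1) * 2 ^ u := by
            rw [Finset.sum_const, Finset.card_range, nsmul_eq_mul]
            push_cast
            ring
    have b2 : ∑ x ∈ Finset.range (W + 1), (Mc τ u θ A1 (a + 1 + x) a a' : ℝ) ≤
        ∑ x ∈ Finset.range (W + 1), (nn τ u θ (1 + x) : ℝ) := by
      apply Finset.sum_le_sum
      intro x _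
      have := Mc_nn τ u θ A1 (a + 1 + x) a a' (by omega)
      rw [show a + 1 + x - a = 1 + x by omega] at this
      exact_mod_cast this
    have b3 : ∑ x ∈ Finset.range e, (Mc τ u θ A1 (a + 1 + (W + 1 + x)) a a' : ℝ) ≤
        (e : ℝ) * Y := by
      calc ∑ x ∈ Finset.range e, (Mc τ u θ A1 (a + 1 + (W + 1 + x)) a a' : ℝ)
          ≤ ∑ x ∈ Finset.range e, Y := by
            apply Finset.sum_le_sum
            intro x _
            have h1 := Mc_nn τ u θ A1 (a + 1 + (W + 1 + x)) a a' (by omega)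
            rw [show a + 1 + (W + 1 + x) - a = W + 2 + x by omega] at h1
            have h2 : (nn τ u θ (W + 2 + x) : ℝ) < Y := by
              by_contra h3
              push Not at h3
              have := (hWT φ τ A p hG hA hGp hp u Y θ hu hY).1 _ h3
              omega
            have h3 : (Mc τ u θ A1 (a + 1 + (W + 1 + x)) a a' : ℝ) ≤
                (nn τ u θ (W + 2 + x) : ℝ) := by exact_mod_cast h1
            linarith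
        _ = (e : ℝ) * Y := by
            rw [Finset.sum_const, Finset.card_range, nsmul_eq_mul]
    have he3 : (e : ℝ) ≤ a' + v := by exact_mod_cast he2
    have hN0 : (0 : ℝ) ≤ 2 ^ u := by positivity
    have hS0 : 0 ≤ ∑ x ∈ Finset.range (W + 1), (nn τ u θ (1 + x) : ℝ) :=
      Finset.sum_nonneg fun _ _ => Nat.cast_nonneg _
    obtain ⟨S, hSS⟩ : ∃ S, S = ∑ x ∈ Finset.range (W + 1), (nn τ u θ (1 + x) : ℝ) := ⟨_, rfl⟩
    obtain ⟨N, hN⟩ : ∃ N : ℝ, N = 2 ^ u := ⟨_, rfl⟩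
    rw [← hSS] at b2 hS0 ⊢
    rw [← hN] at b1 hN0 ⊢
    have ha0 : (0 : ℝ) ≤ a := Nat.cast_nonneg _
    have ha0' : (0 : ℝ) ≤ a' := Nat.cast_nonneg _
    have hv0 : (0 : ℝ) ≤ v := Nat.cast_nonneg _
    have hY0 : 0 ≤ Y := by linarith
    have c1 : (e : ℝ) * Y ≤ (a' + v) * Y := mul_le_mul_of_nonneg_right he3 hY0
    have k1 : ((a : ℝ) + 1) * N ≤ ((a : ℝ) + 1) * ((a' : ℝ) + 1) * N := by
      nlinarith [mul_nonneg (mul_nonneg (by linarith : (0 : ℝ) ≤ (a : ℝ) + 1) ha0') hN0]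
    have k2 : S ≤ ((a : ℝ) + 1) * ((a' : ℝ) + 1) * S := by
      have : (1 : ℝ) ≤ ((a : ℝ) + 1) * ((a' : ℝ) + 1) := by nlinarith
      nlinarith
    have k3 : ((a' : ℝ) + v) * Y ≤ ((a : ℝ) + 1) * ((a' : ℝ) + 1) * ((v + 1) * Y) := by
      have h5 : ((a' : ℝ) + v) ≤ ((a : ℝ) + 1) * ((a' : ℝ) + 1) * (v + 1) := by
        have h6 : ((a' : ℝ) + v) ≤ ((a' : ℝ) + 1) * (v + 1) := by nlinarith [mul_nonneg ha0' hv0]
        have h7 : 0 ≤ (a : ℝ) * (((a' : ℝ) + 1) * (v + 1)) := by positivity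
        nlinarith
      calc ((a' : ℝ) + v) * Y ≤ (((a : ℝ) + 1) * ((a' : ℝ) + 1) * (v + 1)) * Y := by gcongr
        _ = ((a : ℝ) + 1) * ((a' : ℝ) + 1) * ((v + 1) * Y) := by ring
    linarith
  have hcast : (∑ i ∈ Finset.range ((a + 1) + ((W + 1) + e)), (Mc τ u θ A1 i a a' : ℝ≥0∞)) =
      ENNReal.ofReal (∑ i ∈ Finset.range ((a + 1) + ((W + 1) + e)), (Mc τ u θ A1 i a a' : ℝ)) := by
    rw [ENNReal.ofReal_sum_of_nonneg (fun _ _ => Nat.cast_nonneg _)]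
    apply Finset.sum_congr rfl
    intro i _
    rw [ENNReal.ofReal_natCast]
  rw [hcast]
  exact ENNReal.ofReal_le_ofReal hreal

/-! ## Assembly -/

/-- the negative scales -/
theorem neg_part (τ : ℝ → ℝ) (u : ℕ) (A1 : ℕ → ℕ) (ξ : Pl) (n : ℤ) (r : ℝ)
    (hn : ∀ i : ℤ, (2 : ℝ) ^ i ≤ (2 : ℝ) ^ (i - n) * r ∧ (2 : ℝ) ^ (i - n) * r < (2 : ℝ) ^ (i + 1))
    (hr : |ξ 1| ≤ r) :
    ∑' m : ℕ, ∑ j ∈ Finset.range (2 ^ u), ENNReal.ofReal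
      (Tht (sl τ u j) (A1 j) ((2 : ℝ) ^ (-((m : ℤ) + 1) - n) • ξ)) ≤
      ENNReal.ofReal (2 * (2 : ℝ) ^ u) := by
  have h1 : ∀ m : ℕ, ∑ j ∈ Finset.range (2 ^ u), ENNReal.ofReal
      (Tht (sl τ u j) (A1 j) ((2 : ℝ) ^ (-((m : ℤ) + 1) - n) • ξ)) ≤
      ENNReal.ofReal ((2 : ℝ) ^ u) * ENNReal.ofReal ((1 / 2 : ℝ) ^ m) := by
    intro m
    calc ∑ j ∈ Finset.range (2 ^ u), ENNReal.ofReal
             (Tht (sl τ u j) (A1 j) ((2 : ℝ) ^ (-((m : ℤ) + 1) - n) • ξ))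
        ≤ ∑ j ∈ Finset.range (2 ^ u), ENNReal.ofReal ((1 / 2 : ℝ) ^ m) := by
          apply Finset.sum_le_sum
          intro j _
          apply ENNReal.ofReal_le_ofReal
          refine (Tht_le1 _ _ _ ξ (by positivity)).trans ?_
          have h2 := (hn (-((m : ℤ) + 1))).2
          have h3 : (2 : ℝ) ^ (-((m : ℤ) + 1) - n) * |ξ 1| ≤ (2 : ℝ) ^ (-((m : ℤ) + 1) - n) * r := by
            gcongr
          refine h3.trans (h2.le.trans (le_of_eq ?_))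
          rw [show -((m : ℤ) + 1) + 1 = -(m : ℤ) by ring, zpow_neg, zpow_natCast, one_div, inv_pow]
      _ = ENNReal.ofReal ((2 : ℝ) ^ u) * ENNReal.ofReal ((1 / 2 : ℝ) ^ m) := by
          rw [Finset.sum_const, Finset.card_range, nsmul_eq_mul]
          congr 1
          rw [← ENNReal.ofReal_natCast]
          push_cast
          rfl
  calc ∑' m : ℕ, ∑ j ∈ Finset.range (2 ^ u), ENNReal.ofReal
           (Tht (sl τ u j) (A1 j) ((2 : ℝ) ^ (-((m : ℤ) + 1) - n) • ξ))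
      ≤ ∑' m : ℕ, ENNReal.ofReal ((2 : ℝ) ^ u) * ENNReal.ofReal ((1 / 2 : ℝ) ^ m) :=
        ENNReal.tsum_le_tsum h1
    _ = ENNReal.ofReal (2 * (2 : ℝ) ^ u) := by
        rw [ENNReal.tsum_mul_left, geo, ← ENNReal.ofReal_mul (by positivity), mul_comm]

/-- the nonnegative scales in the flat case -/
theorem pos_flat (hPT : StPT) {φ τ : ℝ → ℝ} (hG : Graph φ τ) (u : ℕ) (A1 : ℕ → ℕ) (ξ : Pl) (n : ℤ)
    (hn : ∀ i : ℤ, (2 : ℝ) ^ i ≤ (2 : ℝ) ^ (i - n) * ‖ξ‖ ∧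
      (2 : ℝ) ^ (i - n) * ‖ξ‖ < (2 : ℝ) ^ (i + 1)) (h : |ξ 1| < ‖ξ‖ / 4) :
    ∑' m : ℕ, ∑ j ∈ Finset.range (2 ^ u), ENNReal.ofReal
      (Tht (sl τ u j) (A1 j) ((2 : ℝ) ^ ((m : ℤ) - n) • ξ)) ≤
      ENNReal.ofReal (4 * (2 : ℝ) ^ u) := by
  have h1 : ∀ m : ℕ, ∑ j ∈ Finset.range (2 ^ u), ENNReal.ofReal
      (Tht (sl τ u j) (A1 j) ((2 : ℝ) ^ ((m : ℤ) - n) • ξ)) ≤
      ENNReal.ofReal (2 * (2 : ℝ) ^ u) * ENNReal.ofReal ((1 / 2 : ℝ) ^ m) := by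
    intro m
    calc ∑ j ∈ Finset.range (2 ^ u), ENNReal.ofReal
             (Tht (sl τ u j) (A1 j) ((2 : ℝ) ^ ((m : ℤ) - n) • ξ))
        ≤ ∑ j ∈ Finset.range (2 ^ u), ENNReal.ofReal (2 * (1 / 2 : ℝ) ^ m) := by
          apply Finset.sum_le_sum
          intro j _
          apply ENNReal.ofReal_le_ofReal
          refine (Tht_le2 _ _ _ ξ (by positivity)).trans ?_
          have h2 := (hn (m : ℤ)).1
          rw [zpow_natCast] at h2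
          have h3 := inner_flat hPT (sl τ u j) (hG.1 _) ξ h
          have h4 : (2 : ℝ) ^ m / 2 ≤ (2 : ℝ) ^ ((m : ℤ) - n) * |⟪E (sl τ u j), ξ⟫| := by
            calc (2 : ℝ) ^ m / 2 ≤ ((2 : ℝ) ^ ((m : ℤ) - n) * ‖ξ‖) / 2 := by gcongr
              _ = (2 : ℝ) ^ ((m : ℤ) - n) * (‖ξ‖ / 2) := by ring
              _ ≤ (2 : ℝ) ^ ((m : ℤ) - n) * |⟪E (sl τ u j), ξ⟫| := by gcongr
          have e2 : 2 * (1 / 2 : ℝ) ^ m = 1 / (2 ^ m / 2) := by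
            rw [one_div (2 : ℝ), inv_pow]
            field_simp
          rw [e2]
          apply one_div_le_one_div_of_le (by positivity)
          linarith
      _ = ENNReal.ofReal (2 * (2 : ℝ) ^ u) * ENNReal.ofReal ((1 / 2 : ℝ) ^ m) := by
          rw [Finset.sum_const, Finset.card_range, nsmul_eq_mul, ← ENNReal.ofReal_natCast,
            ← ENNReal.ofReal_mul (by positivity), ← ENNReal.ofReal_mul (by positivity)]
          congr 1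
          push_cast
          ring
  calc ∑' m : ℕ, ∑ j ∈ Finset.range (2 ^ u), ENNReal.ofReal
           (Tht (sl τ u j) (A1 j) ((2 : ℝ) ^ ((m : ℤ) - n) • ξ))
      ≤ ∑' m : ℕ, ENNReal.ofReal (2 * (2 : ℝ) ^ u) * ENNReal.ofReal ((1 / 2 : ℝ) ^ m) :=
        ENNReal.tsum_le_tsum h1
    _ = ENNReal.ofReal (4 * (2 : ℝ) ^ u) := by
        rw [ENNReal.tsum_mul_left, geo, ← ENNReal.ofReal_mul (by positivity)]
        congr 1
        ring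

/-- the nonnegative scales in the steep case -/
theorem pos_steep (hPT : StPT) (hCN : StCN) (hWT : StWT) {φ τ : ℝ → ℝ} {A p : ℝ} (hG : Graph φ τ)
    (hA : 0 < A) (hGp : GapP A p τ) (hp : 1 < p) {u v : ℕ} {Y : ℝ} {A1 : ℕ → ℕ} (hu : 1 ≤ u)
    (hY : 2 ≤ Y) (hA1 : ∀ j < 2 ^ u, A1 j ≤ Wt τ u Y (sl τ u j) + v) (ξ : Pl) (n : ℤ)
    (hn : ∀ i : ℤ, (2 : ℝ) ^ i ≤ (2 : ℝ) ^ (i - n) * |ξ 1| ∧
      (2 : ℝ) ^ (i - n) * |ξ 1| < (2 : ℝ) ^ (i + 1)) (h : ‖ξ‖ / 4 ≤ |ξ 1|) (h0 : ξ 1 ≠ 0) :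
    ∑' m : ℕ, ∑ j ∈ Finset.range (2 ^ u), ENNReal.ofReal
      (Tht (sl τ u j) (A1 j) ((2 : ℝ) ^ ((m : ℤ) - n) • ξ)) ≤
      ENNReal.ofReal (32 * ((2 : ℝ) ^ u + (v + 1) * Y +
        ∑ i ∈ Finset.Icc 1 (Wt τ u Y (th ξ) + 1), (nn τ u (th ξ) i : ℝ))) := by
  classical
  obtain ⟨θ, hθ⟩ : ∃ θ, θ = th ξ := ⟨_, rfl⟩
  obtain ⟨B, hB⟩ : ∃ B, B = (2 : ℝ) ^ u + (v + 1) * Y +
      ∑ i ∈ Finset.Icc 1 (Wt τ u Y θ + 1), (nn τ u θ i : ℝ) := ⟨_, rfl⟩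
  have hB0 : 0 ≤ B := by
    rw [hB]
    have : 0 ≤ ∑ i ∈ Finset.Icc 1 (Wt τ u Y θ + 1), (nn τ u θ i : ℝ) :=
      Finset.sum_nonneg fun _ _ => Nat.cast_nonneg _
    positivity
  rw [← hθ, ← hB]
  -- pointwise
  have hpt : ∀ m j : ℕ, ENNReal.ofReal (Tht (sl τ u j) (A1 j) ((2 : ℝ) ^ ((m : ℤ) - n) • ξ)) ≤
      ∑' q : ℕ × ℕ, ENNReal.ofReal (2 * (1 / 2 : ℝ) ^ q.1 * (1 / 2 : ℝ) ^ q.2) *
        (if |sl τ u j - θ| ≤ (2 : ℝ) ^ ((q.1 : ℤ) - (m : ℤ)) ∧ m ≤ A1 j + q.2 then 1 else 0) := by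
    intro m j
    have hx := (hn (m : ℤ)).1
    rw [zpow_natCast] at hx
    obtain ⟨a, a', h1, h2, h3⟩ := ptw ((2 : ℝ) ^ ((m : ℤ) - n) * |ξ 1|) |sl τ u j - θ| (A1 j) m hx
      (abs_nonneg _)
    refine le_trans ?_ (ENNReal.le_tsum (a, a'))
    simp only
    rw [if_pos ⟨h1, h2⟩, mul_one]
    apply ENNReal.ofReal_le_ofReal
    rw [Tht_smul _ _ _ ξ (by positivity), inner_steep hPT _ ξ h h0, ← hθ]
    rw [← mul_assoc ((2 : ℝ) ^ ((m : ℤ) - n)) |ξ 1|]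
    exact h3
  -- one scale
  have hsc : ∀ m : ℕ, ∑ j ∈ Finset.range (2 ^ u), ENNReal.ofReal
      (Tht (sl τ u j) (A1 j) ((2 : ℝ) ^ ((m : ℤ) - n) • ξ)) ≤
      ∑' q : ℕ × ℕ, ENNReal.ofReal (2 * (1 / 2 : ℝ) ^ q.1 * (1 / 2 : ℝ) ^ q.2) *
        (Mc τ u θ A1 m q.1 q.2 : ℝ≥0∞) := by
    intro m
    refine (Finset.sum_le_sum fun j _ => hpt m j).trans ?_
    rw [← Summable.tsum_finsetSum (fun _ _ => ENNReal.summable)]
    apply ENNReal.tsum_le_tsum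
    intro q
    rw [← Finset.mul_sum]
    gcongr
    rw [Finset.sum_boole]
    unfold Mc
    exact le_refl _
  calc ∑' m : ℕ, ∑ j ∈ Finset.range (2 ^ u), ENNReal.ofReal
           (Tht (sl τ u j) (A1 j) ((2 : ℝ) ^ ((m : ℤ) - n) • ξ))
      ≤ ∑' m : ℕ, ∑' q : ℕ × ℕ, ENNReal.ofReal (2 * (1 / 2 : ℝ) ^ q.1 * (1 / 2 : ℝ) ^ q.2) *
        (Mc τ u θ A1 m q.1 q.2 : ℝ≥0∞) := ENNReal.tsum_le_tsum hsc
    _ = ∑' q : ℕ × ℕ, ENNReal.ofReal (2 * (1 / 2 : ℝ) ^ q.1 * (1 / 2 : ℝ) ^ q.2) *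
        ∑' m : ℕ, (Mc τ u θ A1 m q.1 q.2 : ℝ≥0∞) := by
        rw [ENNReal.tsum_comm]
        congr 1
        funext q
        rw [ENNReal.tsum_mul_left]
    _ ≤ ∑' q : ℕ × ℕ, ENNReal.ofReal (2 * B) *
        (ENNReal.ofReal (((q.1 : ℝ) + 1) * (1 / 2 : ℝ) ^ q.1) *
          ENNReal.ofReal (((q.2 : ℝ) + 1) * (1 / 2 : ℝ) ^ q.2)) := by
        apply ENNReal.tsum_le_tsum
        intro q
        have h1 := Mc_sum hCN hWT hG hA hGp hp hu hY hA1 θ q.1 q.2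
        rw [← hB] at h1
        refine (mul_le_mul_right h1 _).trans (le_of_eq ?_)
        rw [← ENNReal.ofReal_mul (by positivity), ← ENNReal.ofReal_mul (by positivity),
          ← ENNReal.ofReal_mul (by positivity)]
        congr 1
        ring
    _ = ENNReal.ofReal (32 * B) := by
        rw [ENNReal.tsum_mul_left, ENNReal.tsum_prod']
        have h2 : ∀ a : ℕ, ∑' b : ℕ, (ENNReal.ofReal (((a : ℝ) + 1) * (1 / 2 : ℝ) ^ a) *
            ENNReal.ofReal (((b : ℝ) + 1) * (1 / 2 : ℝ) ^ b)) =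
            ENNReal.ofReal (((a : ℝ) + 1) * (1 / 2 : ℝ) ^ a) * ENNReal.ofReal 4 := by
          intro a
          rw [ENNReal.tsum_mul_left, geo1]
        simp only [h2]
        rw [ENNReal.tsum_mul_right, geo1, ← ENNReal.ofReal_mul (by norm_num),
          ← ENNReal.ofReal_mul (by positivity)]
        congr 1
        ring

theorem hWRM (hPT : StPT) (hCN : StCN) (hWT : StWT) : StWRM := by
  intro φ τ A p hG hA hGp hp
  refine ⟨34, by norm_num, ?_⟩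
  intro u v Y A1 ξ hu hY hA1 hξ
  have hS0 : 0 ≤ ∑ i ∈ Finset.Icc 1 (Wt τ u Y (th ξ) + 1), (nn τ u (th ξ) i : ℝ) :=
    Finset.sum_nonneg fun _ _ => Nat.cast_nonneg _
  have hY0 : 0 ≤ Y := by linarith
  have hvY : 0 ≤ ((v : ℝ) + 1) * Y := by positivity
  have hN0 : 0 ≤ (2 : ℝ) ^ u := by positivity
  have hξ0 : 0 < ‖ξ‖ := norm_pos_iff.2 hξ
  rcases lt_or_ge |ξ 1| (‖ξ‖ / 4) with h | h
  · obtain ⟨n, hn⟩ := norm2 hξ0
    rw [zsplit _ n]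
    have h1 := pos_flat hPT hG u A1 ξ n hn h
    have h2 := neg_part τ u A1 ξ n ‖ξ‖ hn (by linarith)
    refine (add_le_add h1 h2).trans ?_
    rw [← ENNReal.ofReal_add (by positivity) (by positivity)]
    apply ENNReal.ofReal_le_ofReal
    linarith
  · have h0' : 0 < |ξ 1| := lt_of_lt_of_le (by linarith) h
    have h0 : ξ 1 ≠ 0 := abs_pos.1 h0'
    obtain ⟨n, hn⟩ := norm2 h0'
    rw [zsplit _ n]
    have h1 := pos_steep hPT hCN hWT hG hA hGp hp hu hY hA1 ξ n hn h h0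
    have h2 := neg_part τ u A1 ξ n |ξ 1| hn le_rfl
    refine (add_le_add h1 h2).trans ?_
    rw [← ENNReal.ofReal_add (by positivity) (by positivity)]
    apply ENNReal.ofReal_le_ofReal
    linarith

end Pool.Agent.Helper78.EQ
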